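import Pool.Agent.Helper76.SGA.Goals
import Pool.Agent.Helper15.Ru.DetH
import Pool.Agent.Helper96.Ru.HeightLocal

/-! # Packet SGA-RHT (MP_a41896_nt): the height of the resultant -/

set_option autoImplicit false

open MvPolynomial

namespace Pool.Agent.Helper95.SGA

open Pool.Agent.Helper92.Ru Pool.Agent.Helper42.SG Pool.Agent.Helper76.SGA

/-- the sum norm from the degrees and the coefficients. -/
theorem N1_le_of {k : Type} [Field k] {m : ℕ} (w : AbsoluteValue k ℝ) (R : ℕ)
    (p : MvPolynomial (Fin m) k) (hR : ∀ h, p.degreeOf h ≤ R) (b : ℝ) (hb : 0 ≤ b)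
    (hp : ∀ e, w (coeff e p) ≤ b) : Pool.Agent.Helper15.Ru.N1 w p ≤ ((R : ℝ) + 1) ^ m * b := by
  classical
  set S : Finset (Fin m →₀ ℕ) := (Fintype.piFinset (fun _ : Fin m => Finset.range (R + 1))).image
    (fun f => Finsupp.equivFunOnFinite.symm f) with hS
  have hsub : p.support ⊆ S := by
    intro a ha
    rw [hS, Finset.mem_image]
    refine ⟨fun i => a i, ?_, ?_⟩
    · rw [Fintype.mem_piFinset]
      intro i
      rw [Finset.mem_range]
      have := (monomial_le_degreeOf i ha).trans (hR i)
      omega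
    · ext i; simp
  have hcard : S.card ≤ (R + 1) ^ m := by
    refine Finset.card_image_le.trans ?_
    rw [Fintype.card_piFinset]
    simp
  rw [Pool.Agent.Helper15.Ru.N1_eq w _ S hsub]
  refine (Finset.sum_le_sum (fun a _ => hp a)).trans ?_
  rw [Finset.sum_const, nsmul_eq_mul]
  refine mul_le_mul_of_nonneg_right ?_ hb
  exact_mod_cast hcard

theorem rht (h1 : SEP) : RHT := by
  intro k _ _ m
  have hd : 1 ≤ Module.finrank ℚ k := Module.finrank_pos
  have hd' : (1 : ℝ) ≤ (Module.finrank ℚ k : ℝ) := by exact_mod_cast hd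
  refine ⟨((m : ℝ) + 3) * Module.finrank ℚ k, ?_, ?_⟩
  · have : (0 : ℝ) ≤ m := Nat.cast_nonneg m
    nlinarith
  intro f g N B hf hN hNB hfB hgB hg
  classical
  obtain ⟨-, -, -, hco, -, hdeg, -, -, -⟩ := h1 k m
  have hN' : (1 : ℝ) ≤ N := by exact_mod_cast hN
  have hB1 : 1 ≤ B := hN'.trans hNB
  have hB0 : 0 ≤ B := by linarith
  set R : ℕ := ⌊B⌋₊ with hR
  have hRB : (R : ℝ) ≤ B := Nat.floor_le hB0
  have hfR : ∀ h, f.degreeOf h ≤ R := fun h => Nat.le_floor (hfB h)
  have hgR : ∀ h, g.degreeOf h ≤ R := fun h => Nat.le_floor (hgB h)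
  set D := Polynomial.resultant (sepL k m f) (sepL k m g) N N with hD
  have hy : (fun e : f.support => coeff e.1 f) ≠ 0 := by
    obtain ⟨e, he⟩ := ne_zero_iff.mp hf
    intro h
    exact he (congrFun h ⟨e, mem_support_iff.mpr he⟩)
  have hsup : ∀ (w : AbsoluteValue k ℝ) (e : Fin (m + 1) →₀ ℕ),
      w (coeff e f) ≤ ⨆ j : f.support, w (coeff j.1 f) := by
    intro w e
    by_cases he : e ∈ f.support
    · exact Finite.le_ciSup_of_le (⟨e, he⟩ : f.support) le_rfl
    · rw [notMem_support_iff.mp he, map_zero]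
      exact Real.iSup_nonneg fun j => w.nonneg _
  set T : ℝ := ((R : ℝ) + 1) ^ m with hT
  have hT1 : 1 ≤ T := one_le_pow₀ (by linarith [(Nat.cast_nonneg R : (0 : ℝ) ≤ R)])
  set c : ℝ := ((N + N).factorial : ℝ) * (T * B) ^ (N + N) with hc
  have hTB : 1 ≤ T * B := one_le_mul_of_one_le_of_one_le hT1 hB1
  have hfac : (1 : ℝ) ≤ ((N + N).factorial : ℝ) := by
    exact_mod_cast Nat.one_le_iff_ne_zero.2 (Nat.factorial_ne_zero _)
  have hc1 : 1 ≤ c := one_le_mul_of_one_le_of_one_le hfac (one_le_pow₀ hTB)
  -- entries of the Sylvester matrix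
  have hent : ∀ i j, (Polynomial.sylvester (sepL k m f) (sepL k m g) N N) i j = 0 ∨
      (∃ a, (Polynomial.sylvester (sepL k m f) (sepL k m g) N N) i j = (sepL k m f).coeff a) ∨
      (∃ a, (Polynomial.sylvester (sepL k m f) (sepL k m g) N N) i j = (sepL k m g).coeff a) := by
    intro i j
    induction j using Fin.addCases with
    | left j =>
      simp only [Polynomial.sylvester, Matrix.of_apply, Fin.addCases_left]
      split_ifs
      · exact Or.inr (Or.inr ⟨_, rfl⟩)
      · exact Or.inl rfl
    | right j =>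
      simp only [Polynomial.sylvester, Matrix.of_apply, Fin.addCases_right]
      split_ifs
      · exact Or.inr (Or.inl ⟨_, rfl⟩)
      · exact Or.inl rfl
  have key : PH D ≤ c ^ (Module.finrank ℚ k) * PH f ^ (N + N) := by
    refine Pool.Agent.Helper96.Ru.heightLocal k D.support f.support (fun e => coeff e.1 D)
      (fun e => coeff e.1 f) (N + N) c hy hc1 ?_ ?_
    · intro v e
      set b : ℝ := ⨆ j : f.support, v (coeff j.1 f) with hbdef
      have hb0 : 0 ≤ b := Real.iSup_nonneg fun j => v.1.nonneg _
      have hgc : ∀ e, v.1 (coeff e g) ≤ B * b := by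
        intro e
        obtain ⟨e', c', hc', he'⟩ := hg e
        rw [he', map_mul]
        exact mul_le_mul ((v.1.apply_nat_le_self _).trans hc') (hsup v.1 _) (v.1.nonneg _) hB0
      have hfc : ∀ e, v.1 (coeff e f) ≤ B * b := by
        intro e
        refine (hsup v.1 e).trans ?_
        exact le_mul_of_one_le_left hb0 hB1
      have hM : ∀ i j, Pool.Agent.Helper15.Ru.N1 v.1
          ((Polynomial.sylvester (sepL k m f) (sepL k m g) N N) i j) ≤ T * (B * b) := by
        intro i j
        rcases hent i j with h0 | ⟨a, ha⟩ | ⟨a, ha⟩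
        · rw [h0, Pool.Agent.Helper15.Ru.N1_zero]
          positivity
        · rw [ha]
          refine N1_le_of v.1 R _ (fun h => (hdeg f a h).trans (hfR _)) _ (by positivity) ?_
          intro e
          rw [hco]
          exact hfc _
        · rw [ha]
          refine N1_le_of v.1 R _ (fun h => (hdeg g a h).trans (hgR _)) _ (by positivity) ?_
          intro e
          rw [hco]
          exact hgc _
      have h2 : v (coeff e.1 D) ≤ (N + N).factorial * (T * (B * b)) ^ (N + N) :=
        (Pool.Agent.Helper15.Ru.coeff_le_N1 v.1 D e.1).trans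
          (Pool.Agent.Helper15.Ru.N1_det v.1 (N + N) _ _ hM)
      refine h2.trans (le_of_eq ?_)
      rw [hc, ← mul_assoc T, mul_pow (T * B), ← mul_assoc]
    · intro v e
      set b : ℝ := ⨆ j : f.support, v (coeff j.1 f) with hbdef
      have hb0 : 0 ≤ b := Real.iSup_nonneg fun j => v.1.nonneg _
      have hna : IsNonarchimedean v.1 := fun x y => v.add_le x y
      refine Pool.Agent.Helper15.Ru.Bd_det hna (N + N) _ b hb0 (fun i j => ?_) e.1
      rcases hent i j with h0 | ⟨a, ha⟩ | ⟨a, ha⟩
      · intro e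
        rw [h0, coeff_zero, map_zero]
        exact hb0
      · intro e
        rw [ha, hco]
        exact hsup v.1 _
      · intro e
        rw [ha, hco]
        obtain ⟨e', c', hc', he'⟩ := hg (cmb e (Finsupp.single 0 a))
        rw [he', map_mul]
        calc v.1 ((c' : ℕ) : k) * v.1 (coeff e' f)
            ≤ 1 * b := mul_le_mul (hna.apply_natCast_le_one) (hsup v.1 _) (v.1.nonneg _)
              (by norm_num)
          _ = b := one_mul _
  have hDpos : 0 < PH D := Height.mulHeight_pos _
  have hfpos : 0 < PH f := Height.mulHeight_pos _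
  have hcpos : 0 < c := by linarith
  have hlog : Real.log (PH D) ≤ (Module.finrank ℚ k : ℝ) * Real.log c
      + ((N + N : ℕ) : ℝ) * Real.log (PH f) := by
    refine (Real.log_le_log hDpos key).trans (le_of_eq ?_)
    rw [Real.log_mul (by positivity) (by positivity), Real.log_pow, Real.log_pow]
  have hlc : Real.log c ≤ 2 * N * ((m + 3) * B) := by
    have e1 : Real.log ((N + N).factorial : ℝ) ≤ 2 * N * (2 * B) := by
      have e2 : ((N + N).factorial : ℝ) ≤ ((N + N : ℕ) : ℝ) ^ (N + N) := by
        exact_mod_cast Nat.factorial_le_pow (N + N)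
      have e3 : (0 : ℝ) < ((N + N : ℕ) : ℝ) := by
        push_cast; linarith
      calc Real.log ((N + N).factorial : ℝ) ≤ Real.log (((N + N : ℕ) : ℝ) ^ (N + N)) :=
            Real.log_le_log (by linarith) e2
        _ = ((N + N : ℕ) : ℝ) * Real.log ((N + N : ℕ) : ℝ) := Real.log_pow _ _
        _ ≤ ((N + N : ℕ) : ℝ) * ((N + N : ℕ) : ℝ) := by
            refine mul_le_mul_of_nonneg_left ?_ e3.le
            have := Real.log_le_sub_one_of_pos e3
            linarith
        _ ≤ 2 * N * (2 * B) := by
            push_cast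
            nlinarith
    have e4 : Real.log T ≤ m * B := by
      rw [hT, Real.log_pow]
      refine mul_le_mul_of_nonneg_left ?_ (Nat.cast_nonneg m)
      have := Real.log_le_sub_one_of_pos (x := (R : ℝ) + 1) (by positivity)
      linarith
    have e5 : Real.log B ≤ B := by
      have := Real.log_le_sub_one_of_pos (x := B) (by linarith)
      linarith
    rw [hc, Real.log_mul (by positivity) (by positivity), Real.log_pow,
      Real.log_mul (by positivity) (by positivity)]
    push_cast
    nlinarith
  have hfin : (Module.finrank ℚ k : ℝ) * Real.log c ≤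
      (Module.finrank ℚ k : ℝ) * (2 * N * ((m + 3) * B)) :=
    mul_le_mul_of_nonneg_left hlc (by positivity)
  push_cast at hlog
  calc Real.log (PH D) ≤ _ := hlog
    _ ≤ (Module.finrank ℚ k : ℝ) * (2 * N * ((m + 3) * B)) + (N + N) * Real.log (PH f) := by
        linarith
    _ = 2 * N * (Real.log (PH f) + (m + 3) * (Module.finrank ℚ k) * B) := by ring

end Pool.Agent.Helper95.SGA
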